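import Mathlib

/-!
Integer sequences `e` whose dyadic sum `y = ∑ e_k 2^{-k}` has an integral square divisible by an odd prime `p`,
while the truncations are not divisible by `p`: the set `{k : e_k ≠ 0}` is a near-basis of order `p`.
-/

open Finset

namespace Pool.Agent.H49.NB

/-- the numerators of the truncations of `∑ e_k 2^{-k}` -/
def Phi (e : ℕ → ℤ) : ℕ → ℤ
  | 0 => e 0
  | (t+1) => 2 * Phi e t + e (t+1)

/-- `∑_{i ≤ t} e_i Φ_{t-i}` -/
def conv (e : ℕ → ℤ) (t : ℕ) : ℤ := ∑ i ∈ range (t+1), e i * Phi e (t - i)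

/-- `∑_{i ≤ s} e_i e_{s-i}` -/
def cc (e : ℕ → ℤ) (s : ℕ) : ℤ := ∑ i ∈ range (s+1), e i * e (s - i)

lemma conv_succ (e : ℕ → ℤ) (t : ℕ) : conv e (t+1) = 2 * conv e t + cc e (t+1) := by
  unfold conv cc
  rw [sum_range_succ _ (t+1), sum_range_succ _ (t+1), mul_sum]
  have h1 : ∀ i ∈ range (t+1), e i * Phi e (t + 1 - i) = 2 * (e i * Phi e (t - i)) + e i * e (t + 1 - i) := by
    intro i hi
    rw [mem_range] at hi
    have h2 : t + 1 - i = (t - i) + 1 := by omega
    rw [h2]
    simp only [Phi]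
    ring
  rw [sum_congr rfl h1, sum_add_distrib]
  simp only [Nat.sub_self, Phi]
  ring

lemma tail_succ (e : ℕ → ℤ) (r : ℤ) (t : ℕ) :
    r * 2^(t+1) - conv e (t+1) = 2 * (r * 2^t - conv e t) - cc e (t+1) := by
  rw [conv_succ]; ring

lemma tail_jump (e : ℕ → ℤ) (r : ℤ) (t W : ℕ) (h : ∀ i, 1 ≤ i → i ≤ W → cc e (t+i) = 0) :
    r * 2^(t+W) - conv e (t+W) = 2^W * (r * 2^t - conv e t) := by
  induction W with
  | zero => simp
  | succ W ih =>
    rw [← add_assoc, tail_succ, ih (fun i h1 h2 => h i h1 (by omega))]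
    have := h (W+1) (by omega) le_rfl
    rw [← add_assoc] at this
    rw [this]; ring

lemma exists_pair (e : ℕ → ℤ) (r : ℤ) (t W : ℕ) (hT : r * 2^t - conv e t ≠ 0)
    (hW : |r * 2^(t+W) - conv e (t+W)| < 2^W) :
    ∃ a b, e a ≠ 0 ∧ e b ≠ 0 ∧ t + 1 ≤ a + b ∧ a + b ≤ t + W := by
  by_contra hcon
  push Not at hcon
  have h : ∀ i, 1 ≤ i → i ≤ W → cc e (t+i) = 0 := by
    intro i h1 h2
    unfold cc
    apply sum_eq_zero
    intro j hj
    rw [mem_range] at hj
    by_contra hne
    have ha : e j ≠ 0 := fun h => hne (by rw [h, zero_mul])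
    have hb : e (t + i - j) ≠ 0 := fun h => hne (by rw [h, mul_zero])
    have := hcon j (t+i-j) ha hb (by omega)
    omega
  rw [tail_jump e r t W h, abs_mul, abs_of_pos (by positivity : (0:ℤ) < 2^W)] at hW
  have h1 : 1 ≤ |r * 2^t - conv e t| := Int.one_le_abs hT
  nlinarith [(by positivity : (0:ℤ) < 2^W)]

/-! ### the number of non-zero tails -/

lemma tail_abs_sum (e : ℕ → ℤ) (r : ℤ) (M : ℕ) :
    ∑ t ∈ range M, |r * 2^t - conv e t| ≤ |r * 2^M - conv e M| + ∑ s ∈ range M, |cc e (s+1)| := by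
  induction M with
  | zero => simp
  | succ M ih =>
    rw [sum_range_succ, sum_range_succ]
    have h1 : 2 * |r * 2^M - conv e M| ≤ |r * 2^(M+1) - conv e (M+1)| + |cc e (M+1)| := by
      have h2 : 2 * |r * 2^M - conv e M| = |2 * (r * 2^M - conv e M)| := by
        rw [abs_mul]; rfl
      rw [h2, tail_succ]
      calc |2 * (r * 2^M - conv e M)| = |(2 * (r * 2^M - conv e M) - cc e (M+1)) + cc e (M+1)| := by
            congr 1; ring
        _ ≤ _ := abs_add_le _ _
    linarith

lemma tail_abs_jump (e : ℕ → ℤ) (r : ℤ) (M K : ℕ) :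
    2^K * |r * 2^M - conv e M| ≤ |r * 2^(M+K) - conv e (M+K)| + 2^K * ∑ s ∈ range K, |cc e (M+s+1)| := by
  induction K with
  | zero => simp
  | succ K ih =>
    rw [sum_range_succ]
    have h1 : 2 * |r * 2^(M+K) - conv e (M+K)| ≤ |r * 2^(M+(K+1)) - conv e (M+(K+1))| + |cc e (M+K+1)| := by
      have h2 : 2 * |r * 2^(M+K) - conv e (M+K)| = |2 * (r * 2^(M+K) - conv e (M+K))| := by
        rw [abs_mul]; rfl
      rw [h2, ← add_assoc, tail_succ]
      calc |2 * (r * 2^(M+K) - conv e (M+K))| = |(2 * (r * 2^(M+K) - conv e (M+K)) - cc e (M+K+1)) + cc e (M+K+1)| := by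
            congr 1; ring
        _ ≤ _ := abs_add_le _ _
    have h3 : (1:ℤ) ≤ 2^K := one_le_pow₀ (by norm_num)
    have h4 : 0 ≤ |cc e (M+K+1)| := abs_nonneg _
    have h5 : (2:ℤ)^(K+1) = 2 * 2^K := by ring
    rw [h5]
    nlinarith [mul_nonneg (sub_nonneg.mpr h3) h4]

lemma cc_abs_sum (e : ℕ → ℤ) (L : ℕ) :
    ∑ s ∈ range L, |cc e (s+1)| ≤ (∑ i ∈ range (L+1), |e i|)^2 - |e 0|^2 := by
  have h1 : ∑ s ∈ range L, |cc e (s+1)| + |cc e 0| ≤ (∑ i ∈ range (L+1), |e i|)^2 := by
    rw [← sum_range_succ' (fun s => |cc e s|) L]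
    calc ∑ s ∈ range (L+1), |cc e s| ≤ ∑ s ∈ range (L+1), ∑ i ∈ range (s+1), |e i| * |e (s-i)| := by
          apply sum_le_sum
          intro s _
          unfold cc
          apply (abs_sum_le_sum_abs _ _).trans
          apply sum_le_sum
          intro i _
          rw [abs_mul]
      _ = ∑ x ∈ (range (L+1)).sigma (fun s => range (s+1)), |e x.2| * |e (x.1 - x.2)| := by
          rw [sum_sigma]
      _ ≤ ∑ x ∈ (range (L+1)) ×ˢ (range (L+1)), |e x.1| * |e x.2| := by
          have hinj : Set.InjOn (fun x : (_ : ℕ) × ℕ => (x.2, x.1 - x.2))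
              ((range (L+1)).sigma (fun s => range (s+1))) := by
            intro x hx y hy hxy
            rw [mem_coe, mem_sigma, mem_range, mem_range] at hx hy
            simp only [Prod.mk.injEq] at hxy
            obtain ⟨x1, x2⟩ := x
            obtain ⟨y1, y2⟩ := y
            simp only at hx hy hxy
            obtain ⟨h3, h4⟩ := hxy
            subst h3
            have : x1 = y1 := by omega
            subst this
            rfl
          rw [← sum_image (f := fun z : ℕ × ℕ => |e z.1| * |e z.2|) hinj]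
          apply sum_le_sum_of_subset_of_nonneg
          · intro z hz
            rw [mem_image] at hz
            obtain ⟨x, hx, rfl⟩ := hz
            rw [mem_sigma, mem_range, mem_range] at hx
            rw [mem_product, mem_range, mem_range]
            exact ⟨by show x.2 < L + 1; omega, by show x.1 - x.2 < L + 1; omega⟩
          · intro z _ _
            positivity
      _ = (∑ i ∈ range (L+1), |e i|)^2 := by
          rw [sq, sum_mul_sum, sum_product]
  have h2 : |cc e 0| = |e 0|^2 := by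
    unfold cc
    simp [sq]
  linarith

lemma psi_card (e : ℕ → ℤ) (r : ℤ) (M L : ℕ) (hML : M ≤ L)
    (hL : |r * 2^L - conv e L| < 2^(L-M)) :
    (#{t ∈ range M | r * 2^t - conv e t ≠ 0} : ℤ) ≤ (∑ i ∈ range (L+1), |e i|)^2 - |e 0|^2 := by
  have h1 : (#{t ∈ range M | r * 2^t - conv e t ≠ 0} : ℤ) ≤ ∑ t ∈ range M, |r * 2^t - conv e t| := by
    calc (#{t ∈ range M | r * 2^t - conv e t ≠ 0} : ℤ) = ∑ t ∈ range M with r * 2^t - conv e t ≠ 0, (1:ℤ) := by
          rw [sum_const, nsmul_eq_mul, mul_one]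
      _ ≤ ∑ t ∈ range M with r * 2^t - conv e t ≠ 0, |r * 2^t - conv e t| := by
          apply sum_le_sum
          intro t ht
          rw [mem_filter] at ht
          exact Int.one_le_abs ht.2
      _ ≤ _ := sum_le_sum_of_subset_of_nonneg (filter_subset _ _) (fun _ _ _ => abs_nonneg _)
  obtain ⟨K, rfl⟩ : ∃ K, L = M + K := ⟨L - M, by omega⟩
  have h2 := tail_abs_sum e r M
  have h3 := tail_abs_jump e r M K
  rw [Nat.add_sub_cancel_left] at hL
  have h4 : |r * 2^M - conv e M| ≤ ∑ s ∈ range K, |cc e (M+s+1)| := by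
    by_contra hcon
    push Not at hcon
    have h5 : ∑ s ∈ range K, |cc e (M+s+1)| + 1 ≤ |r * 2^M - conv e M| := hcon
    have h6 : (2:ℤ)^K * (∑ s ∈ range K, |cc e (M+s+1)| + 1) ≤ 2^K * |r * 2^M - conv e M| :=
      mul_le_mul_of_nonneg_left h5 (by positivity)
    rw [mul_add, mul_one] at h6
    linarith
  have h5 := cc_abs_sum e (M+K)
  have h6 : ∑ s ∈ range (M+K), |cc e (s+1)| = ∑ s ∈ range M, |cc e (s+1)| + ∑ s ∈ range K, |cc e (M+s+1)| :=
    sum_range_add _ _ _
  linarith

/-! ### lists -/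

lemma flatten (P : ℕ → Prop) (W : ℕ) : ∀ l : List ℕ,
    (∀ β ∈ l, ∃ a b, P a ∧ P b ∧ β + 1 ≤ a + b ∧ a + b ≤ β + W) →
    ∃ L : List ℕ, L.length = 2 * l.length ∧ (∀ x ∈ L, P x) ∧ l.sum + l.length ≤ L.sum ∧
      L.sum ≤ l.sum + l.length * W := by
  intro l
  induction l with
  | nil => intro _; exact ⟨[], by simp⟩
  | cons β l ih =>
    intro h
    obtain ⟨L, h1, h2, h3, h4⟩ := ih (fun x hx => h x (List.mem_cons_of_mem _ hx))
    obtain ⟨a, b, ha, hb, hab1, hab2⟩ := h β List.mem_cons_self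
    refine ⟨a :: b :: L, ?_, ?_, ?_, ?_⟩
    · simp only [List.length_cons, h1]; ring
    · intro x hx
      simp only [List.mem_cons] at hx
      rcases hx with rfl | rfl | hx
      · exact ha
      · exact hb
      · exact h2 x hx
    · simp only [List.sum_cons, List.length_cons]; omega
    · simp only [List.sum_cons, List.length_cons]
      have : (l.length + 1) * W = l.length * W + W := by ring
      omega

/-! ### power series -/

section PS

variable {p : ℕ} [hp : Fact p.Prime]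

open PowerSeries

lemma coeff_mul_ne {A B : PowerSeries (ZMod p)} {n : ℕ} (h : coeff n (A * B) ≠ 0) :
    ∃ i j, i + j = n ∧ coeff i A ≠ 0 ∧ coeff j B ≠ 0 := by
  rw [coeff_mul] at h
  obtain ⟨x, hx, hne⟩ := exists_ne_zero_of_sum_ne_zero h
  rw [HasAntidiagonal.mem_antidiagonal] at hx
  exact ⟨x.1, x.2, hx, fun h => hne (by rw [h, zero_mul]), fun h => hne (by rw [h, mul_zero])⟩

lemma coeff_pow_ne (A : PowerSeries (ZMod p)) (k : ℕ) : ∀ n : ℕ, coeff n (A ^ k) ≠ 0 →
    ∃ l : List ℕ, l.length = k ∧ (∀ x ∈ l, coeff x A ≠ 0) ∧ l.sum = n := by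
  induction k with
  | zero =>
    intro n h
    rw [pow_zero, coeff_one] at h
    have : n = 0 := by by_contra h0; exact h (by rw [if_neg h0])
    exact ⟨[], by simp [this]⟩
  | succ k ih =>
    intro n h
    rw [pow_succ] at h
    obtain ⟨i, j, hij, hi, hj⟩ := coeff_mul_ne h
    obtain ⟨l, h1, h2, h3⟩ := ih i hi
    refine ⟨j :: l, by simp [h1], ?_, by simp [h3]; omega⟩
    intro x hx
    rcases List.mem_cons.mp hx with rfl | hx
    · exact hj
    · exact h2 x hx

lemma coeff_pow_card (f : PowerSeries (ZMod p)) (n : ℕ) :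
    coeff n (f ^ p) = if p ∣ n then coeff (n / p) f else 0 := by
  have h1 : coeff n (f ^ p) = (trunc (n+1) (f ^ p)).coeff n := by
    rw [coeff_trunc, if_pos (Nat.lt_succ_self n)]
  rw [h1, ← trunc_trunc_pow, coeff_trunc, if_pos (Nat.lt_succ_self n)]
  have h2 : ((trunc (n+1) f : Polynomial (ZMod p)) : PowerSeries (ZMod p)) ^ p
      = ((Polynomial.expand (ZMod p) p (trunc (n+1) f) : Polynomial (ZMod p)) : PowerSeries (ZMod p)) := by
    rw [ZMod.expand_card]; norm_cast
  rw [h2, Polynomial.coeff_coe, Polynomial.coeff_expand hp.out.pos]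
  split_ifs with h
  · rw [coeff_trunc, if_pos]
    exact Nat.lt_succ_of_le (Nat.div_le_self n p)
  · rfl


lemma coeff_one_sub_X_ne {n : ℕ} (h : coeff n ((1 : PowerSeries (ZMod p)) - X) ≠ 0) : n ≤ 1 := by
  by_contra hn
  apply h
  rw [map_sub, coeff_one, coeff_X, if_neg (by omega), if_neg (by omega), sub_zero]

lemma coeff_one_sub_X_mul (A : PowerSeries (ZMod p)) (n : ℕ) :
    coeff n ((1 - X) * A) = coeff n A - (if n = 0 then 0 else coeff (n-1) A) := by
  rw [sub_mul, one_mul, map_sub]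
  congr 1
  rcases n with _ | n
  · simp
  · rw [if_neg (by omega), coeff_succ_X_mul]
    rfl

theorem core0 {h : ℕ} (hph : p = 2 * h + 1) (h1 : 1 ≤ h) (e : ℕ → ℤ) (r : ℤ) (hr : (p : ℤ) ∣ r)
    (t : ℕ) (ht : ¬ (p : ℤ) ∣ Phi e (t / p)) :
    ∃ (a u : ℕ) (l : List ℕ), e a ≠ 0 ∧ u < h ∧ l.length = h ∧
      (∀ β ∈ l, r * 2^β - conv e β ≠ 0) ∧ a + (u + l.sum) = t := by
  classical
  have h2 : (2 : ZMod p) ≠ 0 := by
    intro h0
    have : ((2 : ℕ) : ZMod p) = 0 := by exact_mod_cast h0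
    rw [ZMod.natCast_eq_zero_iff] at this
    have := Nat.le_of_dvd (by norm_num) this
    omega
  obtain ⟨ι, hι⟩ : ∃ ι : ZMod p, 2 * ι = 1 := ⟨2⁻¹, mul_inv_cancel₀ h2⟩
  have hι0 : ι ≠ 0 := by
    rintro rfl
    rw [mul_zero] at hι
    exact zero_ne_one hι
  set f : PowerSeries (ZMod p) := PowerSeries.mk fun k => (e k : ZMod p) * ι ^ k with hf
  set g : PowerSeries (ZMod p) := PowerSeries.mk fun k => (Phi e k : ZMod p) * ι ^ k with hg
  set ψ : PowerSeries (ZMod p) := PowerSeries.mk fun k => (conv e k : ZMod p) * ι ^ k with hψ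
  have hfg : f = (1 - X) * g := by
    ext n
    rw [coeff_one_sub_X_mul, hf, hg]
    simp only [coeff_mk]
    rcases n with _ | n
    · simp [Phi]
    · rw [if_neg (by omega)]
      simp only [Phi, Nat.add_sub_cancel]
      push_cast
      rw [pow_succ]
      linear_combination (-(Phi e n : ZMod p) * ι ^ n) * hι
  have hψ2 : ψ = f * g := by
    ext n
    rw [coeff_mul, hψ, hf, hg]
    simp only [coeff_mk]
    rw [Nat.sum_antidiagonal_eq_sum_range_succ (fun i j => (e i : ZMod p) * ι ^ i * ((Phi e j : ZMod p) * ι ^ j)) n]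
    unfold conv
    push_cast
    rw [sum_mul]
    apply sum_congr rfl
    intro i hi
    rw [mem_range] at hi
    have : ι ^ n = ι ^ i * ι ^ (n - i) := by rw [← pow_add]; congr 1; omega
    rw [this]; ring
  set gs : PowerSeries (ZMod p) := PowerSeries.mk fun k => coeff (k / p) g with hgs
  have hgs1 : (1 - X) * gs = f ^ p := by
    ext n
    rw [coeff_one_sub_X_mul, coeff_pow_card, hgs]
    simp only [coeff_mk]
    have hp0 := hp.out.pos
    rcases n with _ | n
    · rw [if_pos rfl, if_pos (dvd_zero _), Nat.zero_div, hfg, coeff_one_sub_X_mul, if_pos rfl]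
    · rw [if_neg (by omega), Nat.add_sub_cancel]
      split_ifs with hd
      · obtain ⟨m, hm⟩ := hd
        have hm0 : 0 < m := by
          rcases Nat.eq_zero_or_pos m with h0 | h0
          · rw [h0, mul_zero] at hm; omega
          · exact h0
        have e1 : (n + 1) / p = m := by rw [hm]; exact Nat.mul_div_cancel_left m hp0
        have e2 : n / p = m - 1 := by
          have : n = p * (m - 1) + (p - 1) := by
            obtain ⟨k, rfl⟩ : ∃ k, m = k + 1 := ⟨m - 1, by omega⟩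
            rw [Nat.add_sub_cancel]
            have : p * (k + 1) = p * k + p := by ring
            omega
          rw [this, Nat.mul_add_div hp0, Nat.div_eq_of_lt (by omega), add_zero]
        rw [e1, e2, hfg, coeff_one_sub_X_mul, if_neg (by omega)]
      · have : (n + 1) / p = n / p := by
          rw [Nat.succ_div, if_neg hd, add_zero]
        rw [this, sub_self]
  have hgs2 : gs = f * ((1 - X) ^ (h - 1) * ψ ^ h) := by
    have hne : (1 - X : PowerSeries (ZMod p)) ≠ 0 := by
      intro h0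
      have := congrArg (coeff 0) h0
      simp at this
    apply mul_left_cancel₀ hne
    rw [hgs1]
    have hff : f ^ 2 = (1 - X) * ψ := by
      rw [hψ2, ← mul_assoc, mul_comm (1 - X) f, mul_assoc, ← hfg, sq]
    have hfp : f ^ p = f ^ (2 * h + 1) := congrArg (fun n => f ^ n) hph
    calc f ^ p = f * (f ^ 2) ^ h := by rw [hfp, pow_succ, pow_mul]; ring
      _ = f * ((1 - X) ^ h * ψ ^ h) := by rw [hff, mul_pow]
      _ = (1 - X) * (f * ((1 - X) ^ (h-1) * ψ ^ h)) := by
        obtain ⟨k, rfl⟩ : ∃ k, h = k + 1 := ⟨h - 1, by omega⟩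
        rw [Nat.add_sub_cancel, pow_succ (1 - X) k]; ring
  have hnz : coeff t gs ≠ 0 := by
    rw [hgs, coeff_mk, hg, coeff_mk]
    apply mul_ne_zero _ (pow_ne_zero _ hι0)
    intro h0
    rw [ZMod.intCast_zmod_eq_zero_iff_dvd] at h0
    exact ht h0
  rw [hgs2] at hnz
  obtain ⟨a, j, haj, ha, hj⟩ := coeff_mul_ne hnz
  obtain ⟨u, s, hus, hu, hs⟩ := coeff_mul_ne hj
  obtain ⟨l1, hl1, hl1', hl1s⟩ := coeff_pow_ne _ _ _ hu
  obtain ⟨l, hl, hl', hls⟩ := coeff_pow_ne _ _ _ hs
  have hu1 : u ≤ h - 1 := by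
    rw [← hl1s, ← hl1]
    clear hl1 hl1s
    induction l1 with
    | nil => simp
    | cons x l ih =>
      have h3 := coeff_one_sub_X_ne (hl1' x List.mem_cons_self)
      have h4 := ih (fun y hy => hl1' y (List.mem_cons_of_mem _ hy))
      simp only [List.sum_cons, List.length_cons]
      omega
  have ha' : e a ≠ 0 := by
    intro h0
    apply ha
    rw [hf, coeff_mk, h0, Int.cast_zero, zero_mul]
  refine ⟨a, u, l, ha', by omega, hl, ?_, by omega⟩
  intro β hβ h0
  apply hl' β hβ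
  rw [hψ, coeff_mk]
  have h3 : conv e β = r * 2 ^ β := by linarith
  rw [h3]
  have h4 : (r : ZMod p) = 0 := by rwa [ZMod.intCast_zmod_eq_zero_iff_dvd]
  push_cast
  rw [h4]; ring

theorem core {h : ℕ} (hph : p = 2 * h + 1) (h1 : 1 ≤ h) (e : ℕ → ℤ) (r : ℤ) (hr : (p : ℤ) ∣ r)
    (t W : ℕ) (hW : ∀ β ≤ t, |r * 2^(β+W) - conv e (β+W)| < 2^W)
    (ht : ¬ (p : ℤ) ∣ Phi e (t / p)) :
    ∃ L : List ℕ, L.length = p ∧ (∀ x ∈ L, x = 0 ∨ e x ≠ 0) ∧ t < L.sum ∧ L.sum ≤ t + h * W := by
  obtain ⟨a, u, l, ha, hu, hl, hl', hs⟩ := core0 hph h1 e r hr t ht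
  obtain ⟨L, hL1, hL2, hL3, hL4⟩ := flatten (fun x => x = 0 ∨ e x ≠ 0) W l (by
    intro β hβ
    have hβt : β ≤ t := by
      have := List.single_le_sum (l := l) (by simp) β hβ
      omega
    obtain ⟨a, b, h5, h6, h7, h8⟩ := exists_pair e r β W (hl' β hβ) (hW β hβt)
    exact ⟨a, b, Or.inr h5, Or.inr h6, h7, h8⟩)
  refine ⟨a :: L, ?_, ?_, ?_, ?_⟩
  · rw [List.length_cons, hL1, hl]; omega
  · intro x hx
    rcases List.mem_cons.mp hx with rfl | hx
    · exact Or.inr ha
    · exact hL2 x hx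
  · rw [List.sum_cons]
    omega
  · rw [List.sum_cons]
    rw [hl] at hL4
    omega

/-- the counting form -/
theorem core_count {h : ℕ} (hph : p = 2 * h + 1) (h1 : 1 ≤ h) (e : ℕ → ℤ) (r : ℤ) (hr : (p : ℤ) ∣ r)
    (N : ℕ) :
    #{t ∈ range N | ¬ (p : ℤ) ∣ Phi e (t / p)} ≤
      #{k ∈ range N | e k ≠ 0} * (h * #{t ∈ range N | r * 2^t - conv e t ≠ 0} ^ h) := by
  classical
  have H := fun t ht => core0 hph h1 e r hr t ht
  choose! a u l ha hu hl hl' hs using H
  have hcard : #({k ∈ range N | e k ≠ 0} ×ˢ (range h ×ˢ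
      Fintype.piFinset (fun _ : Fin h => {t ∈ range N | r * 2^t - conv e t ≠ 0})))
      = #{k ∈ range N | e k ≠ 0} * (h * #{t ∈ range N | r * 2^t - conv e t ≠ 0} ^ h) := by
    rw [card_product, card_product, card_range, Fintype.card_piFinset_const]
  rw [← hcard]
  have hsum : ∀ t, ¬ (p : ℤ) ∣ Phi e (t / p) → (l t).sum = ∑ i : Fin h, (l t).getD i 0 := by
    intro t ht
    have h2 := hl t ht
    have := List.sum_ofFn (f := fun i : Fin h => (l t).getD i 0)
    rw [← this]
    congr 1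
    apply List.ext_getElem
    · simp [h2]
    · intro i hi1 hi2
      simp [List.getElem?_eq_getElem hi1]
  apply card_le_card_of_injOn (fun t => (a t, (u t, fun i : Fin h => (l t).getD i 0)))
  · intro t ht
    rw [mem_coe, mem_filter, mem_range] at ht
    obtain ⟨htN, ht⟩ := ht
    have hs' := hs t ht
    rw [mem_coe, mem_product, mem_product, mem_filter, mem_range, mem_range, Fintype.mem_piFinset]
    refine ⟨⟨?_, ha t ht⟩, hu t ht, ?_⟩
    · show a t < N
      omega
    · intro i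
      have hi : (i : ℕ) < (l t).length := by rw [hl t ht]; exact i.2
      show (l t).getD i 0 ∈ _
      rw [List.getD_eq_getElem _ _ hi, mem_filter, mem_range]
      have hmem := List.getElem_mem hi
      have := List.single_le_sum (l := l t) (by simp) _ hmem
      exact ⟨by omega, hl' t ht _ hmem⟩
  · intro t ht t' ht' htt
    rw [mem_coe, mem_filter, mem_range] at ht ht'
    simp only [Prod.mk.injEq] at htt
    obtain ⟨e1, e2, e3⟩ := htt
    have s1 := hsum t ht.2
    have s2 := hsum t' ht'.2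
    have e4 : (l t).sum = (l t').sum := by
      rw [s1, s2]
      apply sum_congr rfl
      intro i _
      exact congrFun e3 i
    have := hs t ht.2
    have := hs t' ht'.2
    omega

end PS

end Pool.Agent.H49.NB
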