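import Pool.Agent.H49.NearBasisThree

/-!
Digit changes versus `m`-step digit changes of `√2`.
-/

open Finset

namespace Pool.Agent.H49.NB

/-- number of `k ≤ n` with `b_k ≠ b_{k+m}` -/
noncomputable def Dm (m n : ℕ) : ℕ := #{k ∈ Icc 1 n | dg k ≠ dg (k+m)}

/-- number of `t < n` such that the block at `t+1` is not divisible by `g` -/
noncomputable def Hm (m g n : ℕ) : ℕ := #{t ∈ range n | ¬ g ∣ blk m (t+1)}

lemma Dm_mono (m : ℕ) : Monotone (Dm m) := by
  intro a b hab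
  apply card_le_card
  apply filter_subset_filter
  exact Icc_subset_Icc_right hab

lemma Hm_mono (m g : ℕ) : Monotone (Hm m g) := by
  intro a b hab
  apply card_le_card
  apply filter_subset_filter
  exact range_subset_range.mpr hab

/-! ### bounded by powers -/

/-- `F` is bounded by the `e`-th power of `G`, up to dilation -/
def Bd (G F : ℕ → ℕ) (e : ℕ) : Prop :=
  ∃ C : ℕ, ∀ n, F n ≤ C * (G (C*(n+1)) + 1)^e

lemma bd_const {G : ℕ → ℕ} (hG : Monotone G) {C C' e : ℕ} (h : C ≤ C') (n : ℕ) :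
    C * (G (C*(n+1)) + 1)^e ≤ C' * (G (C'*(n+1)) + 1)^e := by
  apply Nat.mul_le_mul h
  apply Nat.pow_le_pow_left
  have := hG (Nat.mul_le_mul_right (n+1) h)
  omega

lemma Bd.weaken {G F : ℕ → ℕ} {e e' : ℕ} (h : Bd G F e) (he : e ≤ e') : Bd G F e' := by
  obtain ⟨C, hC⟩ := h
  refine ⟨C, fun n => (hC n).trans ?_⟩
  apply Nat.mul_le_mul_left
  exact Nat.pow_le_pow_right (by omega) he

lemma Bd.mono {G F F' : ℕ → ℕ} {e : ℕ} (h : Bd G F e) (hF : ∀ n, F' n ≤ F n) : Bd G F' e := by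
  obtain ⟨C, hC⟩ := h
  exact ⟨C, fun n => (hF n).trans (hC n)⟩

lemma Bd.add {G F F' : ℕ → ℕ} {e : ℕ} (hG : Monotone G) (h : Bd G F e) (h' : Bd G F' e) :
    Bd G (fun n => F n + F' n) e := by
  obtain ⟨C, hC⟩ := h
  obtain ⟨C', hC'⟩ := h'
  refine ⟨C + C', fun n => ?_⟩
  have h1 : C * (G (C*(n+1)) + 1)^e ≤ C * (G ((C+C')*(n+1)) + 1)^e := by
    apply Nat.mul_le_mul_left
    apply Nat.pow_le_pow_left
    have := hG (Nat.mul_le_mul_right (n+1) (show C ≤ C + C' by omega))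
    omega
  have h2 : C' * (G (C'*(n+1)) + 1)^e ≤ C' * (G ((C+C')*(n+1)) + 1)^e := by
    apply Nat.mul_le_mul_left
    apply Nat.pow_le_pow_left
    have := hG (Nat.mul_le_mul_right (n+1) (show C' ≤ C + C' by omega))
    omega
  have h3 : (C + C') * (G ((C+C')*(n+1)) + 1)^e
      = C * (G ((C+C')*(n+1)) + 1)^e + C' * (G ((C+C')*(n+1)) + 1)^e := by ring
  have := hC n
  have := hC' n
  simp only
  omega

lemma Bd.pow {G F : ℕ → ℕ} {e : ℕ} (hG : Monotone G) (h : Bd G F e) (p : ℕ) :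
    Bd G (fun n => (F n)^p) (e * p) := by
  obtain ⟨C, hC⟩ := h
  refine ⟨C^p + C, fun n => ?_⟩
  calc (F n)^p ≤ (C * (G (C*(n+1)) + 1)^e)^p := Nat.pow_le_pow_left (hC n) _
    _ = C^p * (G (C*(n+1)) + 1)^(e*p) := by
      rw [mul_pow, ← pow_mul]
    _ ≤ _ := by
      apply Nat.mul_le_mul (by omega)
      apply Nat.pow_le_pow_left
      have := hG (Nat.mul_le_mul_right (n+1) (show C ≤ C^p + C by omega))
      omega

lemma Bd.smul {G F : ℕ → ℕ} {e : ℕ} (hG : Monotone G) (h : Bd G F e) (K : ℕ) :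
    Bd G (fun n => K * F n) e := by
  obtain ⟨C, hC⟩ := h
  refine ⟨K * C + C, fun n => ?_⟩
  calc K * F n ≤ K * (C * (G (C*(n+1)) + 1)^e) := Nat.mul_le_mul_left _ (hC n)
    _ = (K * C) * (G (C*(n+1)) + 1)^e := by ring
    _ ≤ _ := by
      apply Nat.mul_le_mul (by omega)
      apply Nat.pow_le_pow_left
      have := hG (Nat.mul_le_mul_right (n+1) (show C ≤ K * C + C by omega))
      omega

lemma Bd.comp {G F : ℕ → ℕ} {e : ℕ} (hG : Monotone G) (h : Bd G F e) (K : ℕ) :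
    Bd G (fun n => F (K*(n+1))) e := by
  obtain ⟨C, hC⟩ := h
  refine ⟨C * (K+1) + C, fun n => ?_⟩
  calc F (K*(n+1)) ≤ C * (G (C*(K*(n+1)+1)) + 1)^e := hC _
    _ ≤ _ := by
      apply Nat.mul_le_mul (by omega)
      apply Nat.pow_le_pow_left
      have h1 : C*(K*(n+1)+1) ≤ (C*(K+1)+C)*(n+1) := by nlinarith
      have := hG h1
      omega

lemma Bd.const {G : ℕ → ℕ} (k e : ℕ) : Bd G (fun _ => k) e := by
  refine ⟨k, fun n => ?_⟩
  calc k = k * 1^e := by simp
    _ ≤ _ := Nat.mul_le_mul_left _ (Nat.pow_le_pow_left (by omega) _)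

lemma Bd.self {G : ℕ → ℕ} (hG : Monotone G) (K : ℕ) : Bd G (fun n => G (K*(n+1))) 1 := by
  refine ⟨K+1, fun n => ?_⟩
  have h1 := hG (Nat.mul_le_mul_right (n+1) (show K ≤ K+1 by omega))
  calc G (K*(n+1)) ≤ 1 * (G ((K+1)*(n+1)) + 1)^1 := by rw [pow_one, one_mul]; omega
    _ ≤ _ := Nat.mul_le_mul_right _ (by omega)

/-! ### the induction step -/

lemma step (m g p : ℕ) (hm : 1 ≤ m) (hp : p.Prime) (hpg : p * g ∣ 2^m - 1) :
    ∃ K, ∀ n, Hm m (p * g) n ≤ Hm m g n + K *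
      (Dm m (K*(n+1)) + (Hm m g (K*(n+1)) + Hm m g (K*(n+1))) + 1)^p := by
  classical
  have h2m : 2 ≤ 2^m := by
    calc 2 = 2^1 := rfl
      _ ≤ 2^m := Nat.pow_le_pow_right (by norm_num) hm
  set M := 2^m - 1 with hM
  have hM0 : 0 < M := by omega
  have hgM : g ∣ M := dvd_trans (Dvd.intro_left _ rfl) hpg
  have hg0 : 0 < g := Nat.pos_of_dvd_of_pos hgM hM0
  set q := M / g with hq
  have hqg : q * g = M := Nat.div_mul_cancel hgM
  have hMe : 2^m = 2 * 2^(m-1) := by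
    rw [← pow_succ']; congr 1; omega
  have hpM : p ∣ M := dvd_trans (Dvd.intro _ rfl) hpg
  have hpq : p ∣ q := by
    rw [hq]; exact (Nat.dvd_div_iff_mul_dvd hgM).mpr (by rwa [mul_comm] at hpg)
  have hp2 : p ≠ 2 := by
    rintro rfl
    obtain ⟨k, hk⟩ := hpM
    omega
  obtain ⟨h, hph⟩ : ∃ h, p = 2 * h + 1 := by
    rcases hp.eq_two_or_odd' with h | h
    · exact absurd h hp2
    · exact h
  have h1 : 1 ≤ h := by
    have := hp.two_le
    omega
  set v : ℕ → ℤ := fun t => if g ∣ blk m (t+1) then ((blk m (t+1) / g : ℕ) : ℤ) else 0 with hv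
  have hvb : ∀ k, 0 ≤ v k ∧ v k ≤ q := by
    intro k
    simp only [hv]
    split_ifs with h3
    · refine ⟨by positivity, ?_⟩
      have h4 : blk m (k+1) / g ≤ q := by
        rw [hq]
        apply Nat.div_le_div_right
        have := blk_lt m (k+1)
        omega
      exact_mod_cast h4
    · refine ⟨le_rfl, by positivity⟩
  obtain ⟨C, hC1, hC⟩ := labelG_count q v hvb p h hp hph h1 hpq
  -- the exceptional set
  have hP : ∀ k, 1 ≤ k → ee q v k ≠ 0 → dg k ≠ dg (k+m) ∨ ¬ g ∣ blk m (k+1) ∨ ¬ g ∣ blk m k := by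
    intro k hk hne
    by_contra hcon
    push Not at hcon
    obtain ⟨hd, hg1, hg2⟩ := hcon
    apply hne
    obtain ⟨k, rfl⟩ : ∃ j, k = j + 1 := ⟨k - 1, by omega⟩
    simp only [ee, hv]
    rw [if_pos hg1, if_pos hg2]
    have h3 := blk_step m (k+1)
    obtain ⟨a, ha⟩ := hg1
    obtain ⟨b, hb⟩ := hg2
    rw [← hd] at h3
    have h4 : M * dg (k+1) + dg (k+1) = 2^m * dg (k+1) := by
      rw [hM, Nat.sub_mul, one_mul]
      have : 1 * dg (k+1) ≤ 2^m * dg (k+1) := Nat.mul_le_mul_right _ (by omega)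
      omega
    have h5 : blk m (k+1+1) + M * dg (k+1) = 2 * blk m (k+1) := by omega
    rw [ha, hb, ← hqg] at h5
    rw [ha, hb, Nat.mul_div_cancel_left _ hg0, Nat.mul_div_cancel_left _ hg0]
    have h6 : a + q * dg (k+1) = 2 * b := by
      apply Nat.eq_of_mul_eq_mul_left hg0
      linarith [h5]
    have h7 : (((a + q * dg (k+1) : ℕ)) : ℤ) = ((2 * b : ℕ) : ℤ) := by rw [h6]
    push_cast at h7
    push_cast
    linarith
  have hcount : ∀ N, #{k ∈ Icc 1 N | ee q v k ≠ 0} ≤ Dm m N + (Hm m g (N+1) + Hm m g (N+1)) := by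
    intro N
    have hsub : {k ∈ Icc 1 N | ee q v k ≠ 0} ⊆ {k ∈ Icc 1 N | dg k ≠ dg (k+m)} ∪
        ({t ∈ range (N+1) | ¬ g ∣ blk m (t+1)} ∪ ({t ∈ range (N+1) | ¬ g ∣ blk m (t+1)}).image (fun t => t + 1)) := by
      intro k hk
      rw [mem_filter, mem_Icc] at hk
      obtain ⟨⟨hk1, hk2⟩, hk3⟩ := hk
      rw [mem_union, mem_union, mem_image]
      rcases hP k hk1 hk3 with h3 | h3 | h3
      · left; rw [mem_filter, mem_Icc]; exact ⟨⟨hk1, hk2⟩, h3⟩
      · right; left; rw [mem_filter, mem_range]; exact ⟨by omega, h3⟩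
      · right; right
        refine ⟨k - 1, ?_, by omega⟩
        rw [mem_filter, mem_range]
        refine ⟨by omega, ?_⟩
        rwa [show k - 1 + 1 = k by omega]
    calc _ ≤ _ := card_le_card hsub
      _ ≤ _ := (card_union_le _ _).trans (Nat.add_le_add_left ((card_union_le _ _).trans
        (Nat.add_le_add_left card_image_le _)) _)
  set K := 2 * C * p + 1 with hK
  refine ⟨K, ?_⟩
  intro n
  have hA := hC (p * n)
  have hKn : C * (p * n + 1) + 1 ≤ K * (n+1) := by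
    have h3 : C * 1 ≤ C * p := Nat.mul_le_mul_left _ hp.pos
    have h4 : K * (n+1) = 2 * (C * p * n) + n + 2 * (C * p) + 1 := by rw [hK]; ring
    have h5 : C * (p * n + 1) = C * p * n + C := by ring
    omega
  have hF1 : #{k ∈ Icc 1 (C * (p * n + 1)) | ee q v k ≠ 0} + 1 ≤
      Dm m (K*(n+1)) + (Hm m g (K*(n+1)) + Hm m g (K*(n+1))) + 1 := by
    have h4 := hcount (C * (p * n + 1))
    have h5 : Dm m (C * (p * n + 1)) ≤ Dm m (K*(n+1)) := Dm_mono m (by omega)
    have h6 : Hm m g (C * (p * n + 1) + 1) ≤ Hm m g (K*(n+1)) := Hm_mono m g hKn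
    omega
  have hinj : #{s ∈ range n | ¬ (p:ℤ) ∣ v s} ≤ #{t ∈ range (p*n) | ¬ (p:ℤ) ∣ v (t/p)} := by
    apply card_le_card_of_injOn (fun s => p * s)
    · intro s hs
      rw [mem_coe, mem_filter, mem_range] at hs
      rw [mem_coe, mem_filter, mem_range, Nat.mul_div_cancel_left _ hp.pos]
      exact ⟨Nat.mul_lt_mul_of_pos_left hs.1 hp.pos, hs.2⟩
    · intro a _ b _ hab
      exact Nat.eq_of_mul_eq_mul_left hp.pos hab
  have hH : Hm m (p * g) n ≤ Hm m g n + #{s ∈ range n | ¬ (p:ℤ) ∣ v s} := by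
    have hsub : {t ∈ range n | ¬ p * g ∣ blk m (t+1)} ⊆
        {t ∈ range n | ¬ g ∣ blk m (t+1)} ∪ {s ∈ range n | ¬ (p:ℤ) ∣ v s} := by
      intro t ht
      rw [mem_filter] at ht
      rw [mem_union, mem_filter, mem_filter]
      by_cases h3 : g ∣ blk m (t+1)
      · right
        refine ⟨ht.1, ?_⟩
        intro h4
        apply ht.2
        simp only [hv] at h4
        rw [if_pos h3] at h4
        have h5 : p ∣ blk m (t+1) / g := by exact_mod_cast h4
        rw [mul_comm]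
        exact (Nat.dvd_div_iff_mul_dvd h3).mp h5
      · left; exact ⟨ht.1, h3⟩
    exact (card_le_card hsub).trans (card_union_le _ _)
  have hCK : C ≤ K := by
    have h3 : C * 1 ≤ C * p := Nat.mul_le_mul_left _ hp.pos
    have h4 : K = 2 * (C * p) + 1 := by rw [hK]; ring
    omega
  calc Hm m (p * g) n ≤ Hm m g n + C * (#{k ∈ Icc 1 (C * (p * n + 1)) | ee q v k ≠ 0} + 1) ^ p := by omega
    _ ≤ _ := by
      apply Nat.add_le_add_left
      exact Nat.mul_le_mul hCK (Nat.pow_le_pow_left hF1 _)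

lemma all_divisors (m : ℕ) (hm : 1 ≤ m) : ∀ g, g ∣ 2^m - 1 → Bd (Dm m) (Hm m g) g := by
  have h2m : 2 ≤ 2^m := by
    calc 2 = 2^1 := rfl
      _ ≤ 2^m := Nat.pow_le_pow_right (by norm_num) hm
  intro g
  induction g using induction_on_primes with
  | zero =>
    intro h
    have := Nat.eq_zero_of_zero_dvd h
    omega
  | one =>
    intro _
    apply (Bd.const (G := Dm m) 0 1).mono
    intro n
    unfold Hm
    simp
  | prime_mul p g hp ih =>
    intro h
    have hgM : g ∣ 2^m - 1 := dvd_trans (Dvd.intro_left _ rfl) h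
    have hg0 : 0 < g := Nat.pos_of_dvd_of_pos hgM (by omega)
    have ih := ih hgM
    obtain ⟨K, hK⟩ := step m g p hm hp h
    have hG := Dm_mono m
    refine Bd.mono ?_ hK
    have hle : g ≤ g * p := Nat.le_mul_of_pos_right _ hp.pos
    have h1 : Bd (Dm m) (fun n => Dm m (K*(n+1)) + (Hm m g (K*(n+1)) + Hm m g (K*(n+1))) + 1) g :=
      (((Bd.self hG K).weaken hg0).add hG ((ih.comp hG K).add hG (ih.comp hG K))).add hG (Bd.const 1 g)
    have h2 := (h1.pow hG p).smul hG K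
    rw [mul_comm p g]
    exact (ih.weaken hle).add hG h2

theorem blocks_bound (m : ℕ) (hm : 1 ≤ m) :
    ∃ C : ℕ, ∀ n, #{k ∈ Icc 1 n | ∃ j < m, dg (k+j) ≠ dg k} ≤ C * (Dm m (C*(n+1)) + 1)^(2^m - 1) := by
  classical
  have h1 := all_divisors m hm (2^m-1) dvd_rfl
  refine h1.mono ?_
  intro n
  apply card_le_card_of_injOn (fun k => k - 1)
  · intro k hk
    rw [mem_coe, mem_filter, mem_Icc] at hk
    obtain ⟨⟨hk1, hk2⟩, j, hj, hk3⟩ := hk
    rw [mem_coe, mem_filter, mem_range]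
    have hk0 : (fun k => k - 1) k = k - 1 := rfl
    rw [hk0]
    refine ⟨by omega, ?_⟩
    rw [show k - 1 + 1 = k by omega]
    intro hd
    have hlt := blk_lt m k
    have hcase : blk m k = 0 ∨ blk m k = 2^m - 1 := by
      rcases Nat.eq_zero_or_pos (blk m k) with h | h
      · exact Or.inl h
      · right
        have := Nat.le_of_dvd h hd
        omega
    apply hk3
    rcases hcase with h | h
    · have h2 := val_zero h 0 (by omega)
      have h3 := val_zero h j hj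
      simp only [add_zero] at h2
      rw [h2, h3]
    · have h2 := val_full (fun j => dg_lt (k+j)) h 0 (by omega)
      have h3 := val_full (fun j => dg_lt (k+j)) h j hj
      simp only [add_zero] at h2
      rw [h2, h3]
  · intro a ha b hb hab
    rw [mem_coe, mem_filter, mem_Icc] at ha hb
    simp only at hab
    omega

end Pool.Agent.H49.NB
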