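import Pool.Agent.H49.NearBasisTwo

/-!
Periodic words and `m`-step digit changes of `√2`.
-/

open Finset

namespace Pool.Agent.H49.NB

/-- the value of the block of `m` digits starting at `s` -/
noncomputable def blk (m s : ℕ) : ℕ := val (fun j => dg (s+j)) m

lemma blk_step (m s : ℕ) : blk m (s+1) + 2^m * dg s = 2 * blk m s + dg (s+m) := by
  have := val_step (fun j => dg (s+j)) m
  simp only [add_zero] at this
  unfold blk
  rw [← this]
  congr 1
  apply val_congr
  intro j _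
  congr 1; omega

lemma blk_lt (m s : ℕ) : blk m s < 2^m := val_lt (fun j => dg_lt (s+j)) m

/-! ### part (2): periodic words -/

theorem words_setup (m : ℕ) (hm : 1 ≤ m) (w : ℕ → ℕ) (hper : ∀ i, w (i+m) = w i)
    (p : ℕ) (hp : p.Prime) (hpd : p ∣ (2^m-1) / Nat.gcd (2^m-1) (val w m)) :
    ∃ (q h : ℕ) (v : ℕ → ℤ), p = 2 * h + 1 ∧ 1 ≤ h ∧ p ∣ q ∧ (∀ k, 0 ≤ v k ∧ v k ≤ q) ∧
      (∀ t, ¬ (p:ℤ) ∣ v t) ∧
      (∀ x, 1 ≤ x → ee q v x ≠ 0 → ¬ ∃ i, ∀ j ≤ m, dg (x+j) = w (i+j)) := by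
  classical
  have h2m : 2 ≤ 2^m := by
    calc 2 = 2^1 := rfl
      _ ≤ 2^m := Nat.pow_le_pow_right (by norm_num) hm
  set M := 2^m - 1 with hM
  set g := Nat.gcd M (val w m) with hg
  set q := M / g with hq
  have hM0 : 0 < M := by omega
  have hg0 : 0 < g := Nat.gcd_pos_of_pos_left _ hM0
  have hgM : g ∣ M := Nat.gcd_dvd_left _ _
  have hqg : q * g = M := Nat.div_mul_cancel hgM
  have hq0 : 0 < q := Nat.div_pos (Nat.le_of_dvd hM0 hgM) hg0
  have hMe : 2^m = 2 * 2^(m-1) := by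
    rw [← pow_succ']; congr 1; omega
  have hpM : p ∣ M := dvd_trans hpd (Dvd.intro _ hqg)
  have hp2 : p ≠ 2 := by
    rintro rfl
    obtain ⟨k, hk⟩ := hpM
    omega
  have hodd : ∃ h, p = 2 * h + 1 := by
    rcases hp.eq_two_or_odd' with h | h
    · exact absurd h hp2
    · exact h
  obtain ⟨h, hph⟩ := hodd
  have h1 : 1 ≤ h := by
    have := hp.two_le
    omega
  -- the words
  set W : ℕ → ℕ := fun i => val (fun j => w (i+j)) m with hW
  have hW0 : W 0 = val w m := by
    simp only [hW, zero_add]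
  have hWs : ∀ i, W (i+1) + M * w i = 2 * W i := by
    intro i
    have h3 := val_step (fun j => w (i+j)) m
    simp only [add_zero, hper] at h3
    have h4 : W (i+1) = val (fun j => w (i+(j+1))) m := by
      simp only [hW]
      apply val_congr
      intro j _
      congr 1; omega
    have h5 : M * w i + w i = 2^m * w i := by
      rw [hM, Nat.sub_mul, one_mul]
      have : 1 * w i ≤ 2^m * w i := Nat.mul_le_mul_right _ (by omega)
      omega
    rw [h4]
    simp only [hW]
    omega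
  have hgW : ∀ i, g ∣ W i := by
    intro i
    induction i with
    | zero => rw [hW0]; exact Nat.gcd_dvd_right _ _
    | succ i ih =>
      have h3 : g ∣ W (i+1) + M * w i := by rw [hWs]; exact Dvd.dvd.mul_left ih 2
      exact (Nat.dvd_add_left (Dvd.dvd.mul_right hgM _)).mp h3
  have hus : ∀ i, W (i+1) / g + q * w i = 2 * (W i / g) := by
    intro i
    obtain ⟨a, ha⟩ := hgW i
    obtain ⟨b, hb⟩ := hgW (i+1)
    have h3 := hWs i
    rw [ha, hb, Nat.mul_div_cancel_left _ hg0, Nat.mul_div_cancel_left _ hg0]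
    rw [ha, hb, ← hqg] at h3
    apply Nat.eq_of_mul_eq_mul_left hg0
    linarith [h3]
  have hpu : ∀ i, ¬ p ∣ W i / g := by
    intro i
    induction i with
    | zero =>
      rw [hW0]
      intro h3
      have h4 : Nat.Coprime (M / g) (val w m / g) := Nat.coprime_div_gcd_div_gcd hg0
      exact Nat.Prime.not_coprime_iff_dvd.mpr ⟨p, hp, hpd, h3⟩ h4
    | succ i ih =>
      intro h3
      apply ih
      have h4 : p ∣ 2 * (W i / g) := by
        rw [← hus i]
        exact dvd_add h3 (Dvd.dvd.mul_right hpd _)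
      rcases (Nat.Prime.dvd_mul hp).mp h4 with h5 | h5
      · exact absurd ((Nat.prime_dvd_prime_iff_eq hp Nat.prime_two).mp h5) hp2
      · exact h5
  set v : ℕ → ℤ := fun t => if ∃ i, ∀ j < m, dg (t+1+j) = w (i+j) then ((blk m (t+1) / g : ℕ) : ℤ) else 1 with hv
  have hvi : ∀ t i, (∀ j < m, dg (t+1+j) = w (i+j)) → v t = ((W i / g : ℕ) : ℤ) := by
    intro t i h3
    simp only [hv]
    rw [if_pos ⟨i, h3⟩]
    congr 2
    exact val_congr h3
  have hvb : ∀ k, 0 ≤ v k ∧ v k ≤ q := by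
    intro k
    simp only [hv]
    split_ifs with h3
    · refine ⟨by positivity, ?_⟩
      have h4 : blk m (k+1) / g ≤ q := by
        rw [hq]
        apply Nat.div_le_div_right
        have := blk_lt m (k+1)
        omega
      exact_mod_cast h4
    · refine ⟨by norm_num, ?_⟩
      exact_mod_cast hq0
  refine ⟨q, h, v, hph, h1, hpd, hvb, ?_, ?_⟩
  · intro t
    simp only [hv]
    split_ifs with h3
    · obtain ⟨i, h3⟩ := h3
      have h4 : blk m (t+1) = W i := val_congr h3
      rw [h4]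
      intro h5
      exact hpu i (by exact_mod_cast h5)
    · intro h5
      have h6 : (p:ℤ) ∣ ((1:ℕ):ℤ) := by exact_mod_cast h5
      have h7 : p ∣ 1 := by exact_mod_cast h6
      exact hp.one_lt.ne' (Nat.dvd_one.mp h7)
  · intro x hx h6
    obtain ⟨k, rfl⟩ : ∃ k, x = k + 1 := ⟨x - 1, by omega⟩
    rintro ⟨i, h7⟩
    apply h6
    simp only [ee]
    have e1 : v (k+1) = ((W (i+1) / g : ℕ) : ℤ) := by
      apply hvi
      intro j hj
      have := h7 (j+1) (by omega)
      rw [show k + 1 + 1 + j = k + 1 + (j+1) by omega, show i + 1 + j = i + (j+1) by omega]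
      exact this
    have e2 : v k = ((W i / g : ℕ) : ℤ) := hvi k i (fun j hj => h7 j (by omega))
    have e3 : dg (k+1) = w i := by simpa using h7 0 (by omega)
    rw [e1, e2, e3]
    have h8 := hus i
    have h9 : (((W (i+1) / g + q * w i : ℕ)) : ℤ) = ((2 * (W i / g) : ℕ) : ℤ) := by rw [h8]
    push_cast at h9
    push_cast
    linarith

theorem words_near_basis (m : ℕ) (hm : 1 ≤ m) (w : ℕ → ℕ) (hper : ∀ i, w (i+m) = w i)
    (p : ℕ) (hp : p.Prime) (hpd : p ∣ (2^m-1) / Nat.gcd (2^m-1) (val w m)) :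
    ∃ c : ℕ, ∀ t, ∃ L : List ℕ, L.length = p ∧
      (∀ x ∈ L, x = 0 ∨ (1 ≤ x ∧ ¬ ∃ i, ∀ j ≤ m, dg (x+j) = w (i+j))) ∧
      t < L.sum ∧ L.sum ≤ t + c * (Nat.log 2 (t+1) + 1) := by
  obtain ⟨q, h, v, hph, h1, hpq, hvb, hvp, hP⟩ := words_setup m hm w hper p hp hpd
  obtain ⟨c, hc⟩ := labelG q
  refine ⟨h * (c + 1), ?_⟩
  intro t
  obtain ⟨L, h2, h3, h4, h5⟩ := hc v hvb p h hp hph h1 hpq t (hvp _)
  refine ⟨L, h2, ?_, h4, ?_⟩
  · intro x hx
    rcases h3 x hx with h6 | h6
    · exact Or.inl h6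
    · rcases Nat.eq_zero_or_pos x with h0 | h0
      · exact Or.inl h0
      · exact Or.inr ⟨h0, hP x h0 h6⟩
  · have h6 : h * (Nat.log 2 (t+1) + c) ≤ h * (c+1) * (Nat.log 2 (t+1) + 1) := by
      rw [mul_assoc]
      apply Nat.mul_le_mul_left
      have : 0 ≤ c * Nat.log 2 (t+1) := by positivity
      have h7 : (c+1) * (Nat.log 2 (t+1) + 1) = c * Nat.log 2 (t+1) + c + Nat.log 2 (t+1) + 1 := by ring
      omega
    omega

theorem words_count (m : ℕ) (hm : 1 ≤ m) (w : ℕ → ℕ) (hper : ∀ i, w (i+m) = w i)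
    (p : ℕ) (hp : p.Prime) (hpd : p ∣ (2^m-1) / Nat.gcd (2^m-1) (val w m)) (P : ℕ → Prop) [DecidablePred P]
    (hPP : ∀ x, P x ↔ ¬ ∃ i, ∀ j ≤ m, dg (x+j) = w (i+j)) :
    ∃ C : ℕ, ∀ n, n ≤ C * (#{k ∈ Icc 1 n | P k} + 1)^p := by
  classical
  obtain ⟨q, h, v, hph, h1, hpq, hvb, hvp, hP⟩ := words_setup m hm w hper p hp hpd
  obtain ⟨C, hC1, hC⟩ := labelG_count q v hvb p h hp hph h1 hpq
  refine ⟨C * C + 2 * C, ?_⟩
  intro n
  set B := #{k ∈ Icc 1 n | P k} with hB
  have hpos : 1 ≤ (B + 1)^p := Nat.one_le_pow _ _ (by omega)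
  rcases Nat.lt_or_ge n C with hn | hn
  · calc n ≤ (C * C + 2 * C) * 1 := by nlinarith
      _ ≤ _ := Nat.mul_le_mul_left _ hpos
  · set N := n / C - 1 with hN
    have hq1 : 1 ≤ n / C := Nat.div_pos hn (by omega)
    have h2 : C * (N + 1) ≤ n := by
      rw [show N + 1 = n / C by omega]
      exact Nat.mul_div_le n C
    have h3 := hC N
    have hleft : #{t ∈ range N | ¬ (p:ℤ) ∣ v (t / p)} = N := by
      rw [filter_true_of_mem (fun t _ => hvp _), card_range]
    rw [hleft] at h3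
    have h4 : #{k ∈ Icc 1 (C * (N+1)) | ee q v k ≠ 0} ≤ B := by
      apply card_le_card
      intro k hk
      rw [mem_filter, mem_Icc] at hk
      rw [mem_filter, mem_Icc]
      exact ⟨⟨hk.1.1, by omega⟩, (hPP k).mpr (hP k hk.1.1 hk.2)⟩
    have h5 : N ≤ C * (B+1)^p := h3.trans (Nat.mul_le_mul_left _ (Nat.pow_le_pow_left (by omega) _))
    have h6 : n < C * (n / C + 1) := by
      have := Nat.div_add_mod n C
      have := Nat.mod_lt n (show 0 < C by omega)
      nlinarith
    have h7 : C * (n / C + 1) = C * N + 2 * C := by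
      rw [show n / C + 1 = N + 2 by omega]; ring
    calc n ≤ C * N + 2 * C := by omega
      _ ≤ C * (C * (B+1)^p) + 2 * C * (B+1)^p := by
        apply Nat.add_le_add
        · exact Nat.mul_le_mul_left _ h5
        · exact Nat.le_mul_of_pos_right _ hpos
      _ = (C * C + 2 * C) * (B+1)^p := by ring

/-- a non-constant periodic word has an admissible prime -/
theorem words_prime (m : ℕ) (hm : 1 ≤ m) (w : ℕ → ℕ) (hw : ∀ i, w i < 2) (hper : ∀ i, w (i+m) = w i)
    (hne : ∃ i, w i ≠ w (i+1)) : ∃ p, p.Prime ∧ p ∣ (2^m-1) / Nat.gcd (2^m-1) (val w m) := by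
  have h2m : 2 ≤ 2^m := by
    calc 2 = 2^1 := rfl
      _ ≤ 2^m := Nat.pow_le_pow_right (by norm_num) hm
  apply Nat.exists_prime_and_dvd
  intro h1
  obtain ⟨i, hi⟩ := hne
  have hmod : ∀ x, w x = w (x % m) := by
    intro x
    have hk : ∀ k r, w (r + k * m) = w r := by
      intro k
      induction k with
      | zero => intro r; simp
      | succ k ih =>
        intro r
        rw [show r + (k+1) * m = (r + k * m) + m by ring, hper, ih]
    conv_lhs => rw [← Nat.mod_add_div x m, mul_comm m]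
    exact hk _ _
  have hg : Nat.gcd (2^m-1) (val w m) ∣ 2^m-1 := Nat.gcd_dvd_left _ _
  have h2 : 2^m - 1 = Nat.gcd (2^m-1) (val w m) := by
    have := Nat.div_mul_cancel hg
    rw [h1, one_mul] at this
    exact this.symm
  have h3 : 2^m - 1 ∣ val w m := by
    conv_lhs => rw [h2]
    exact Nat.gcd_dvd_right _ _
  have h4 := val_lt hw m
  have hcase : val w m = 0 ∨ val w m = 2^m - 1 := by
    rcases Nat.eq_zero_or_pos (val w m) with h | h
    · exact Or.inl h
    · right
      have := Nat.le_of_dvd h h3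
      omega
  apply hi
  rw [hmod i, hmod (i+1)]
  have e1 : i % m < m := Nat.mod_lt _ (by omega)
  have e2 : (i+1) % m < m := Nat.mod_lt _ (by omega)
  rcases hcase with h | h
  · rw [val_zero h _ e1, val_zero h _ e2]
  · rw [val_full hw h _ e1, val_full hw h _ e2]

end Pool.Agent.H49.NB
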