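import Pool.Agent.H49.NearBasis

/-!
The near-basis theorem for the binary digits of `√2`: labels, counting, corollaries.
-/

open Finset

namespace Pool.Agent.H49.NB

lemma Phi_eq (e : ℕ → ℤ) (t : ℕ) : Phi e t = ∑ i ∈ range (t+1), e i * 2^(t-i) := by
  induction t with
  | zero => simp [Phi]
  | succ t ih =>
    rw [sum_range_succ]
    simp only [Phi, Nat.sub_self, pow_zero, mul_one]
    rw [ih, mul_sum]
    congr 1
    apply sum_congr rfl
    intro i hi
    rw [mem_range] at hi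
    have : t + 1 - i = (t - i) + 1 := by omega
    rw [this, pow_succ]; ring

lemma tail_eq (e : ℕ → ℤ) (r : ℤ) (y : ℝ) (hy : y^2 = r) (t : ℕ) :
    (r:ℝ) * 2^t - (conv e t : ℝ) = - (y * ((Phi e t : ℝ) - y * 2^t))
      - ∑ i ∈ range (t+1), (e i : ℝ) * ((Phi e (t-i) : ℝ) - y * 2^(t-i)) := by
  have h1 : (Phi e t : ℝ) = ∑ i ∈ range (t+1), (e i : ℝ) * 2^(t-i) := by
    rw [Phi_eq]; push_cast; rfl
  have h2 : ∑ i ∈ range (t+1), (e i : ℝ) * ((Phi e (t-i) : ℝ) - y * 2^(t-i))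
      = (conv e t : ℝ) - y * (Phi e t : ℝ) := by
    rw [h1]
    unfold conv
    push_cast
    rw [mul_sum, ← sum_sub_distrib]
    apply sum_congr rfl
    intro i _
    ring
  rw [h2]
  rw [← hy]; ring

lemma tail_bound (e : ℕ → ℤ) (r : ℤ) (y : ℝ) (hy : y^2 = r) (D E : ℝ)
    (hD : ∀ t, |(Phi e t : ℝ) - y * 2^t| ≤ D) (hE : ∀ i, |(e i : ℝ)| ≤ E) (t : ℕ) :
    |(r:ℝ) * 2^t - (conv e t : ℝ)| ≤ |y| * D + E * D * (t+1) := by
  rw [tail_eq e r y hy t]
  have h0 : 0 ≤ D := le_trans (abs_nonneg _) (hD 0)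
  have h1 : |∑ i ∈ range (t+1), (e i : ℝ) * ((Phi e (t-i) : ℝ) - y * 2^(t-i))| ≤ E * D * (t+1) := by
    calc _ ≤ ∑ i ∈ range (t+1), |(e i : ℝ) * ((Phi e (t-i) : ℝ) - y * 2^(t-i))| := abs_sum_le_sum_abs _ _
      _ ≤ ∑ i ∈ range (t+1), E * D := by
        apply sum_le_sum
        intro i _
        rw [abs_mul]
        exact mul_le_mul (hE i) (hD _) (abs_nonneg _) (le_trans (abs_nonneg _) (hE i))
      _ = E * D * (t+1) := by rw [sum_const, card_range, nsmul_eq_mul]; push_cast; ring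
  have h2 : |y * ((Phi e t : ℝ) - y * 2^t)| ≤ |y| * D := by
    rw [abs_mul]; exact mul_le_mul_of_nonneg_left (hD t) (abs_nonneg _)
  calc _ ≤ |-(y * ((Phi e t : ℝ) - y * 2^t))| + |∑ i ∈ range (t+1), (e i : ℝ) * ((Phi e (t-i) : ℝ) - y * 2^(t-i))| := abs_sub _ _
    _ ≤ _ := by rw [abs_neg]; linarith

/-! ### the digits of `√2` -/

/-- truncations of `√2` -/
noncomputable def X (k : ℕ) : ℕ := ⌊Real.sqrt 2 * (2:ℝ)^k⌋₊

/-- the binary digits of `√2` -/
noncomputable def dg (k : ℕ) : ℕ := ⌊Real.sqrt 2 * (2:ℝ)^k⌋₊ % 2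

lemma X_le (k : ℕ) : (X k : ℝ) ≤ Real.sqrt 2 * (2:ℝ)^k := Nat.floor_le (by positivity)

lemma X_lt (k : ℕ) : Real.sqrt 2 * (2:ℝ)^k < X k + 1 := Nat.lt_floor_add_one _

lemma dg_lt (k : ℕ) : dg k < 2 := Nat.mod_lt _ (by norm_num)

lemma X_succ (k : ℕ) : X (k+1) = 2 * X k + dg (k+1) := by
  have h1 := X_le k
  have h2 := X_lt k
  have h3 : 2 * X k ≤ X (k+1) := by
    apply Nat.le_floor
    push_cast
    rw [pow_succ]; linarith
  have h4 : X (k+1) < 2 * X k + 2 := by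
    have h5 := X_le (k+1)
    rw [pow_succ] at h5
    have : (X (k+1) : ℝ) < 2 * X k + 2 := by linarith
    exact_mod_cast this
  have h6 : dg (k+1) = X (k+1) % 2 := rfl
  omega

lemma X_zero : X 0 = 1 := by
  unfold X
  rw [Nat.floor_eq_iff (by positivity)]
  have h1 : (1:ℝ) ≤ Real.sqrt 2 := by
    rw [Real.one_le_sqrt]; norm_num
  have h2 : Real.sqrt 2 < 2 := by
    rw [Real.sqrt_lt' (by norm_num)]; norm_num
  constructor
  · simp
  · norm_num

lemma dg_one : dg 1 = 0 := by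
  have h1 := X_succ 0
  have h2 := X_le 1
  rw [X_zero, zero_add] at h1
  have h3 : Real.sqrt 2 < 3/2 := by
    rw [Real.sqrt_lt' (by norm_num)]; norm_num
  have h4 : (X 1 : ℝ) < 3 := by
    rw [pow_one] at h2; linarith
  have h5 : X 1 < 3 := by exact_mod_cast h4
  omega

/-- the sequence `q b_k + v(k) - 2 v(k-1)` -/
noncomputable def ee (q : ℤ) (v : ℕ → ℤ) : ℕ → ℤ
  | 0 => q + v 0
  | (k+1) => q * dg (k+1) + v (k+1) - 2 * v k

lemma Phi_ee (q : ℤ) (v : ℕ → ℤ) (t : ℕ) : Phi (ee q v) t = q * X t + v t := by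
  induction t with
  | zero => simp [Phi, ee, X_zero]
  | succ t ih =>
    simp only [Phi, ee]
    rw [ih, X_succ]
    push_cast
    ring

/-! ### the window -/

lemma window (K : ℕ) : ∃ c : ℕ, ∀ t β, β ≤ t →
    K * (β + (Nat.log 2 (t+1) + c) + 1) < 2^(Nat.log 2 (t+1) + c) := by
  obtain ⟨c, hc1, hc⟩ : ∃ c : ℕ, 1 ≤ c ∧ 2 * K * (c+1) < 2^c := by
    refine ⟨2 * K + 4, by omega, ?_⟩
    have h1 : K + 1 ≤ 2^K := Nat.lt_two_pow_self
    have h2 : 2 ^ (2 * K + 4) = 16 * (2^K * 2^K) := by ring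
    rw [h2]
    have h3 : (K+1) * (K+1) ≤ 2^K * 2^K := Nat.mul_le_mul h1 h1
    nlinarith
  refine ⟨c, ?_⟩
  intro t β hβ
  set l := Nat.log 2 (t+1) with hl
  have h1 : t + 1 < 2^(l+1) := Nat.lt_pow_succ_log_self (by norm_num) _
  have h2 : l ≤ t := by
    have h4 : 2 ^ l ≤ t + 1 := Nat.pow_log_le_self 2 (x := t+1) (by omega)
    have h3 : l + 1 ≤ 2^l := Nat.lt_two_pow_self
    omega
  have h3 : β + (l + c) + 1 ≤ (c+1) * (t+1) := by
    have h5 : 1 * t ≤ c * t := Nat.mul_le_mul_right t hc1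
    have h6 : (c+1) * (t+1) = c * t + t + c + 1 := by ring
    omega
  have h4 : K * (β + (l + c) + 1) ≤ K * ((c+1) * (t+1)) := Nat.mul_le_mul_left _ h3
  have h5 : 2 * 2^(l+c) = 2^c * 2^(l+1) := by ring
  have h6 : 2 * K * (c+1) * (t+1) ≤ 2^c * (t+1) := Nat.mul_le_mul_right _ hc.le
  have h7 : 2^c * (t+1) < 2^c * 2^(l+1) := Nat.mul_lt_mul_of_pos_left h1 (by positivity)
  have h8 : 2 * (K * ((c+1) * (t+1))) = 2 * K * (c+1) * (t+1) := by ring
  omega

lemma tail_q (q : ℕ) (v : ℕ → ℤ) (hv : ∀ k, 0 ≤ v k ∧ v k ≤ q) (t : ℕ) :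
    |2 * (q:ℤ)^2 * 2^t - conv (ee q v) t| ≤ 4 * (q:ℤ)^2 * (t+1) := by
  have hs0 : (0:ℝ) ≤ Real.sqrt 2 := Real.sqrt_nonneg 2
  have hs2 : Real.sqrt 2 ^ 2 = 2 := Real.sq_sqrt (by norm_num)
  have hs1 : Real.sqrt 2 ≤ 3/2 := by nlinarith
  have h := tail_bound (ee q v) (2 * (q:ℤ)^2) (q * Real.sqrt 2) (by push_cast; rw [mul_pow, hs2]; ring) q (2 * q)
    (by
      intro t
      rw [Phi_ee]
      have h1 := X_le t
      have h2 := X_lt t
      obtain ⟨h3, h4⟩ := hv t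
      have h3' : (0:ℝ) ≤ (v t : ℝ) := by exact_mod_cast h3
      have h4' : (v t : ℝ) ≤ q := by exact_mod_cast h4
      have hq : (0:ℝ) ≤ q := Nat.cast_nonneg q
      rw [abs_le]
      push_cast
      constructor <;> nlinarith)
    (by
      intro i
      have hq : (0:ℝ) ≤ q := Nat.cast_nonneg q
      rcases i with _ | i
      · simp only [ee]
        obtain ⟨h3, h4⟩ := hv 0
        have h3' : (0:ℝ) ≤ (v 0 : ℝ) := by exact_mod_cast h3
        have h4' : (v 0 : ℝ) ≤ q := by exact_mod_cast h4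
        rw [abs_le]; push_cast; constructor <;> linarith
      · simp only [ee]
        obtain ⟨h3, h4⟩ := hv (i+1)
        obtain ⟨h5, h6⟩ := hv i
        have h3' : (0:ℝ) ≤ (v (i+1) : ℝ) := by exact_mod_cast h3
        have h4' : (v (i+1) : ℝ) ≤ q := by exact_mod_cast h4
        have h5' : (0:ℝ) ≤ (v i : ℝ) := by exact_mod_cast h5
        have h6' : (v i : ℝ) ≤ q := by exact_mod_cast h6
        have h7 : (0:ℝ) ≤ (dg (i+1) : ℝ) := Nat.cast_nonneg _
        have h8 : (dg (i+1) : ℝ) ≤ 1 := by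
          have := dg_lt (i+1)
          have h9 : dg (i+1) ≤ 1 := by omega
          exact_mod_cast h9
        rw [abs_le]; push_cast; constructor <;> nlinarith) t
  have hq : (0:ℝ) ≤ q := Nat.cast_nonneg q
  have h2 : |(q:ℝ) * Real.sqrt 2| = q * Real.sqrt 2 := abs_of_nonneg (by positivity)
  rw [h2] at h
  have ht : (0:ℝ) ≤ t := Nat.cast_nonneg t
  have h3 : (q:ℝ) * Real.sqrt 2 * q + 2 * q * q * (t+1) ≤ 4 * (q:ℝ)^2 * (t+1) := by
    have : (q:ℝ) * Real.sqrt 2 * q ≤ q * (3/2) * q := by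
      apply mul_le_mul_of_nonneg_right _ hq
      exact mul_le_mul_of_nonneg_left hs1 hq
    nlinarith [mul_nonneg (mul_nonneg hq hq) ht]
  have h4 := le_trans h h3
  have h5 : ((|2 * (q:ℤ)^2 * 2^t - conv (ee q v) t| : ℤ) : ℝ) ≤ ((4 * (q:ℤ)^2 * (t+1) : ℤ) : ℝ) := by
    push_cast
    push_cast at h4
    exact h4
  exact_mod_cast h5

/-- the near-basis theorem for labels -/
theorem labelG (q : ℕ) : ∃ c : ℕ, ∀ v : ℕ → ℤ, (∀ k, 0 ≤ v k ∧ v k ≤ q) →
    ∀ p h : ℕ, p.Prime → p = 2 * h + 1 → 1 ≤ h → p ∣ q → ∀ t, ¬ (p:ℤ) ∣ v (t / p) →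
    ∃ L : List ℕ, L.length = p ∧ (∀ x ∈ L, x = 0 ∨ ee q v x ≠ 0) ∧ t < L.sum ∧
      L.sum ≤ t + h * (Nat.log 2 (t+1) + c) := by
  obtain ⟨c, hc⟩ := window (4 * q^2)
  refine ⟨c, ?_⟩
  intro v hv p h hp hph h1 hpq t ht
  have : Fact p.Prime := ⟨hp⟩
  have hpq' : (p:ℤ) ∣ (q:ℤ) := by exact_mod_cast hpq
  apply core hph h1 (ee q v) (2 * (q:ℤ)^2) (Dvd.dvd.mul_left (Dvd.dvd.pow hpq' (by norm_num)) _) t
  · intro β hβ
    apply lt_of_le_of_lt (tail_q q v hv _)
    have := hc t β hβ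
    exact_mod_cast this
  · rw [Phi_ee]
    intro h0
    apply ht
    exact (Int.dvd_add_right (Dvd.dvd.mul_right hpq' _)).mp h0

lemma ee_abs (q : ℕ) (v : ℕ → ℤ) (hv : ∀ k, 0 ≤ v k ∧ v k ≤ q) (i : ℕ) : |ee q v i| ≤ 2 * q := by
  rcases i with _ | i
  · simp only [ee]
    obtain ⟨h3, h4⟩ := hv 0
    rw [abs_le]; constructor <;> linarith
  · simp only [ee]
    obtain ⟨h3, h4⟩ := hv (i+1)
    obtain ⟨h5, h6⟩ := hv i
    have hq : (0:ℤ) ≤ q := Nat.cast_nonneg q
    have h7 : dg (i+1) = 0 ∨ dg (i+1) = 1 := by have := dg_lt (i+1); omega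
    rw [abs_le]
    rcases h7 with h7 | h7 <;> rw [h7] <;> push_cast <;> constructor <;> linarith

/-- the counting form for labels -/
theorem labelG_count (q : ℕ) (v : ℕ → ℤ) (hv : ∀ k, 0 ≤ v k ∧ v k ≤ q)
    (p h : ℕ) (hp : p.Prime) (hph : p = 2 * h + 1) (h1 : 1 ≤ h) (hpq : p ∣ q) :
    ∃ C : ℕ, 1 ≤ C ∧ ∀ N, #{t ∈ range N | ¬ (p:ℤ) ∣ v (t / p)} ≤
      C * (#{k ∈ Icc 1 (C * (N+1)) | ee q v k ≠ 0} + 1)^p := by
  classical
  obtain ⟨c, hc⟩ := window (4 * q^2)
  refine ⟨h * (4 * q^2)^h + c + 2, by omega, ?_⟩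
  intro N
  have : Fact p.Prime := ⟨hp⟩
  have hpq' : (p:ℤ) ∣ (q:ℤ) := by exact_mod_cast hpq
  set K := Nat.log 2 (N+1) + c with hK
  set L := N + K with hL
  have hlogN : Nat.log 2 (N+1) ≤ N := by
    have h4 : 2 ^ (Nat.log 2 (N+1)) ≤ N + 1 := Nat.pow_log_le_self 2 (x := N+1) (by omega)
    have h3 : Nat.log 2 (N+1) + 1 ≤ 2^(Nat.log 2 (N+1)) := Nat.lt_two_pow_self
    omega
  have hLC : L ≤ (h * (4 * q^2)^h + c + 2) * (N+1) := by
    calc L ≤ (c + 2) * (N+1) := by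
          have : 0 ≤ c * N := by positivity
          have h3 : (c+2) * (N+1) = c * N + 2 * N + c + 2 := by ring
          omega
      _ ≤ _ := Nat.mul_le_mul_right _ (by omega)
  set P := #{k ∈ Icc 1 L | ee q v k ≠ 0} with hP
  have hPC : P ≤ #{k ∈ Icc 1 ((h * (4 * q^2)^h + c + 2) * (N+1)) | ee q v k ≠ 0} := by
    apply card_le_card
    apply filter_subset_filter
    exact Icc_subset_Icc_right hLC
  have hPL : #{k ∈ range (L+1) | ee q v k ≠ 0} ≤ P + 1 := by
    have hsub : {k ∈ range (L+1) | ee q v k ≠ 0} ⊆ insert 0 {k ∈ Icc 1 L | ee q v k ≠ 0} := by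
      intro k hk
      rw [mem_filter, mem_range] at hk
      rw [mem_insert, mem_filter, mem_Icc]
      rcases Nat.eq_zero_or_pos k with h0 | h0
      · exact Or.inl h0
      · exact Or.inr ⟨⟨h0, by omega⟩, hk.2⟩
    exact (card_le_card hsub).trans (card_insert_le _ _)
  have hT : |2 * (q:ℤ)^2 * 2^L - conv (ee q v) L| < 2^(L-N) := by
    apply lt_of_le_of_lt (tail_q q v hv _)
    have h3 := hc N N le_rfl
    rw [show L - N = K by omega]
    have h4 : 4 * q^2 * (L + 1) < 2^K := by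
      rw [show L + 1 = N + (Nat.log 2 (N+1) + c) + 1 by omega]; exact h3
    exact_mod_cast h4
  have hpsi := psi_card (ee q v) (2 * (q:ℤ)^2) N L (by omega) hT
  have hsum : ∑ i ∈ range (L+1), |ee q v i| ≤ 2 * q * (P + 1) := by
    calc ∑ i ∈ range (L+1), |ee q v i| = ∑ i ∈ range (L+1) with ee q v i ≠ 0, |ee q v i| := by
          rw [sum_filter_of_ne]
          intro i _ hi h0
          apply hi
          rw [h0, abs_zero]
      _ ≤ ∑ i ∈ range (L+1) with ee q v i ≠ 0, (2 * q : ℤ) := by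
          apply sum_le_sum
          intro i _
          exact ee_abs q v hv i
      _ = 2 * q * (#{k ∈ range (L+1) | ee q v k ≠ 0} : ℤ) := by
          rw [sum_const, nsmul_eq_mul]; ring
      _ ≤ _ := by
          apply mul_le_mul_of_nonneg_left _ (by positivity)
          exact_mod_cast hPL
  have hpsi2 : #{t ∈ range N | 2 * (q:ℤ)^2 * 2^t - conv (ee q v) t ≠ 0} ≤ 4 * q^2 * (P+1)^2 := by
    have h3 : (0:ℤ) ≤ ∑ i ∈ range (L+1), |ee q v i| := sum_nonneg (fun _ _ => abs_nonneg _)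
    have h4 : (∑ i ∈ range (L+1), |ee q v i|)^2 ≤ (2 * q * (P + 1))^2 := pow_le_pow_left₀ h3 hsum 2
    have h5 : (#{t ∈ range N | 2 * (q:ℤ)^2 * 2^t - conv (ee q v) t ≠ 0} : ℤ) ≤ 4 * q^2 * (P+1)^2 := by
      have : 0 ≤ |ee q v 0|^2 := by positivity
      nlinarith
    exact_mod_cast h5
  have hcore := core_count hph h1 (ee q v) (2 * (q:ℤ)^2)
    (Dvd.dvd.mul_left (Dvd.dvd.pow hpq' (by norm_num)) _) N
  have hleft : #{t ∈ range N | ¬ (p:ℤ) ∣ v (t / p)} = #{t ∈ range N | ¬ (p:ℤ) ∣ Phi (ee q v) (t / p)} := by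
    congr 1
    apply filter_congr
    intro t _
    rw [Phi_ee, Int.dvd_add_right (Dvd.dvd.mul_right hpq' _)]
  rw [hleft]
  have hA : #{k ∈ range N | ee q v k ≠ 0} ≤ P + 1 := by
    refine le_trans (card_le_card ?_) hPL
    apply filter_subset_filter
    exact range_subset_range.mpr (by omega)
  calc _ ≤ _ := hcore
    _ ≤ (P+1) * (h * (4 * q^2 * (P+1)^2)^h) :=
      Nat.mul_le_mul hA (Nat.mul_le_mul_left _ (Nat.pow_le_pow_left hpsi2 _))
    _ = h * (4 * q^2)^h * (P+1)^p := by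
      have h5 : (P+1)^p = (P+1) * ((P+1)^2)^h := by
        rw [hph, ← pow_mul]; ring
      rw [h5, mul_pow]; ring
    _ ≤ _ := Nat.mul_le_mul (by omega) (Nat.pow_le_pow_left (by omega) _)

/-! ### counting -/

lemma card_le_of_lists (A F : Finset ℕ) (p R : ℕ)
    (H : ∀ t ∈ A, ∃ L : List ℕ, L.length = p ∧ (∀ x ∈ L, x ∈ F) ∧ t < L.sum ∧ L.sum ≤ t + R) :
    #A ≤ R * #F ^ p := by
  classical
  choose! L h1 h2 h3 h4 using H
  have hmaps : ∀ t ∈ A, (fun i : Fin p => (L t).getD i 0) ∈ Fintype.piFinset (fun _ : Fin p => F) := by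
    intro t ht
    rw [Fintype.mem_piFinset]
    intro i
    apply h2 t ht
    have hi : (i : ℕ) < (L t).length := by rw [h1 t ht]; exact i.2
    rw [List.getD_eq_getElem _ _ hi]
    exact List.getElem_mem hi
  have hfib : ∀ b ∈ Fintype.piFinset (fun _ : Fin p => F),
      #{t ∈ A | (fun i : Fin p => (L t).getD i 0) = b} ≤ R := by
    intro b _
    have hsub : {t ∈ A | (fun i : Fin p => (L t).getD i 0) = b} ⊆ Finset.Ico ((∑ i, b i) - R) (∑ i, b i) := by
      intro t ht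
      rw [mem_filter] at ht
      obtain ⟨htA, hb⟩ := ht
      have hs : (L t).sum = ∑ i, b i := by
        rw [← hb, ← h1 t htA]
        have := List.sum_ofFn (f := fun i : Fin (L t).length => (L t).getD i 0)
        rw [← this]
        congr 1
        apply List.ext_getElem
        · simp
        · intro i hi1 hi2
          simp
      rw [mem_Ico]
      have := h3 t htA
      have := h4 t htA
      omega
    calc _ ≤ #(Finset.Ico ((∑ i, b i) - R) (∑ i, b i)) := card_le_card hsub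
      _ ≤ R := by rw [Nat.card_Ico]; omega
  have := card_le_mul_card_image_of_maps_to hmaps R hfib
  rwa [Fintype.card_piFinset_const] at this

/-! ### values of words -/

/-- the value of the word `u_0 ... u_{m-1}` in base 2 -/
def val (u : ℕ → ℕ) : ℕ → ℕ
  | 0 => 0
  | (m+1) => 2 * val u m + u m

lemma val_sum (u : ℕ → ℕ) (m : ℕ) : val u m = ∑ j ∈ range m, u j * 2^(m-1-j) := by
  induction m with
  | zero => simp [val]
  | succ m ih =>
    simp only [val]
    rw [ih, sum_range_succ, mul_sum]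
    have h1 : m + 1 - 1 - m = 0 := by omega
    rw [h1, pow_zero, mul_one]
    congr 1
    apply sum_congr rfl
    intro j hj
    rw [mem_range] at hj
    have : m + 1 - 1 - j = (m - 1 - j) + 1 := by omega
    rw [this, pow_succ]; ring

lemma val_shift (u : ℕ → ℕ) (m : ℕ) : val u (m+1) = 2^m * u 0 + val (fun j => u (j+1)) m := by
  induction m with
  | zero => simp [val]
  | succ m ih =>
    rw [val, ih]
    simp only [val]
    ring

lemma val_step (u : ℕ → ℕ) (m : ℕ) :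
    val (fun j => u (j+1)) m + 2^m * u 0 = 2 * val u m + u m := by
  have := val_shift u m
  simp only [val] at this
  omega

lemma val_congr {u u' : ℕ → ℕ} {m : ℕ} (h : ∀ j < m, u j = u' j) : val u m = val u' m := by
  induction m with
  | zero => rfl
  | succ m ih =>
    simp only [val]
    rw [ih (fun j hj => h j (by omega)), h m (by omega)]

lemma val_lt {u : ℕ → ℕ} (hu : ∀ j, u j < 2) (m : ℕ) : val u m < 2^m := by
  induction m with
  | zero => simp [val]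
  | succ m ih =>
    have := hu m
    simp only [val]
    rw [pow_succ]; omega

lemma val_zero {u : ℕ → ℕ} {m : ℕ} (h : val u m = 0) : ∀ j < m, u j = 0 := by
  induction m with
  | zero => intro j hj; omega
  | succ m ih =>
    simp only [val] at h
    intro j hj
    rcases Nat.lt_succ_iff_lt_or_eq.mp hj with hj | rfl
    · exact ih (by omega) j hj
    · omega

lemma val_full {u : ℕ → ℕ} (hu : ∀ j, u j < 2) {m : ℕ} (h : val u m = 2^m - 1) : ∀ j < m, u j = 1 := by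
  induction m with
  | zero => intro j hj; omega
  | succ m ih =>
    simp only [val] at h
    have h1 := hu m
    have h2 := val_lt hu m
    rw [pow_succ] at h
    have h3 : 0 < 2^m := by positivity
    intro j hj
    rcases Nat.lt_succ_iff_lt_or_eq.mp hj with hj | rfl
    · exact ih (by omega) j hj
    · omega

/-! ### part (1): equal adjacent digits -/

/-- the label `1 + b_{t+1}` -/
noncomputable def v1 : ℕ → ℤ := fun t => 1 + dg (t+1)

lemma tail_v1 (s : ℕ) : |2 * (3:ℤ)^2 * 2^s - conv (ee 3 v1) s| ≤ 4 * (s:ℤ) + 8 := by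
  have hs0 : (0:ℝ) ≤ Real.sqrt 2 := Real.sqrt_nonneg 2
  have hs2 : Real.sqrt 2 ^ 2 = 2 := Real.sq_sqrt (by norm_num)
  have hs1 : Real.sqrt 2 < 1.415 := by
    rw [Real.sqrt_lt' (by norm_num)]; norm_num
  have h := tail_bound (ee 3 v1) (2 * (3:ℤ)^2) (3 * Real.sqrt 2) (by push_cast; rw [mul_pow, hs2]; ring) 1 4
    (by
      intro t
      rw [Phi_ee]
      have h1 := X_le t
      have h2 := X_lt t
      have h3 := X_le (t+1)
      have h4 := X_lt (t+1)
      rw [X_succ, pow_succ] at h3 h4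
      push_cast at h3 h4
      have h5 := dg_lt (t+1)
      simp only [v1]
      rw [abs_le]
      push_cast
      have h6 : dg (t+1) = 0 ∨ dg (t+1) = 1 := by omega
      rcases h6 with h6 | h6 <;> rw [h6] at h3 h4 ⊢ <;> push_cast at h3 h4 ⊢ <;> constructor <;> linarith)
    (by
      intro i
      rcases i with _ | i
      · simp only [ee, v1, zero_add, dg_one]
        norm_num
      · simp only [ee, v1]
        have h5 := dg_lt (i+1)
        have h6 : (dg (i+1) : ℝ) ≤ 1 := by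
          have : dg (i+1) ≤ 1 := by omega
          exact_mod_cast this
        have h7 : (0:ℝ) ≤ (dg (i+1) : ℝ) := Nat.cast_nonneg _
        have h8 := dg_lt (i+1+1)
        have h9 : (dg (i+1+1) : ℝ) ≤ 1 := by
          have : dg (i+1+1) ≤ 1 := by omega
          exact_mod_cast this
        have h10 : (0:ℝ) ≤ (dg (i+1+1) : ℝ) := Nat.cast_nonneg _
        rw [abs_le]; push_cast; constructor <;> linarith) s
  have h2 : |(3:ℝ) * Real.sqrt 2| = 3 * Real.sqrt 2 := abs_of_nonneg (by positivity)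
  rw [h2] at h
  have h4 : |((2 * (3:ℤ)^2 : ℤ) : ℝ) * 2^s - (conv (ee 3 v1) s : ℝ)| < 4 * s + 9 := by
    linarith
  have h5 : ((|2 * (3:ℤ)^2 * 2^s - conv (ee 3 v1) s| : ℤ) : ℝ) < ((4 * (s:ℤ) + 9 : ℤ) : ℝ) := by
    push_cast
    push_cast at h4
    exact h4
  have h6 : |2 * (3:ℤ)^2 * 2^s - conv (ee 3 v1) s| < 4 * (s:ℤ) + 9 := by exact_mod_cast h5
  omega


theorem equal_near_basis (t : ℕ) : ∃ L : List ℕ, L.length = 3 ∧ (∀ x ∈ L, x = 0 ∨ (1 ≤ x ∧ dg x = dg (x+1))) ∧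
    t < L.sum ∧ L.sum ≤ t + (Nat.log 2 (t+1) + 5) := by
  have : Fact (Nat.Prime 3) := ⟨by norm_num⟩
  obtain ⟨L, h1, h2, h3, h4⟩ := core (p := 3) (h := 1) rfl le_rfl (ee 3 v1) (2 * (3:ℤ)^2) (by norm_num) t
    (Nat.log 2 (t+1) + 5)
    (by
      intro β hβ
      apply lt_of_le_of_lt (tail_v1 _)
      set l := Nat.log 2 (t+1) with hl
      have h1 : t + 1 < 2^(l+1) := Nat.lt_pow_succ_log_self (by norm_num) _
      have h2 : l ≤ t := by
        have h4 : 2 ^ l ≤ t + 1 := Nat.pow_log_le_self 2 (x := t+1) (by omega)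
        have h3 : l + 1 ≤ 2^l := Nat.lt_two_pow_self
        omega
      have h5 : 2^(l+5) = 16 * 2^(l+1) := by ring
      have h6 : 4 * (β + (l+5)) + 8 < 2^(l+5) := by rw [h5]; omega
      exact_mod_cast h6)
    (by
      rw [Phi_ee]
      simp only [v1]
      have := dg_lt (t/3+1)
      push_cast
      omega)
  refine ⟨L, h1, ?_, h3, by omega⟩
  intro x hx
  rcases h2 x hx with h | h
  · exact Or.inl h
  · rcases x with _ | x
    · exact Or.inl rfl
    · right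
      refine ⟨by omega, ?_⟩
      simp only [ee, v1] at h
      have h5 := dg_lt (x+1)
      have h6 := dg_lt (x+1+1)
      omega

lemma ee_v1 (x : ℕ) (hx : 1 ≤ x) : ee 3 v1 x = (dg x : ℤ) + dg (x+1) - 1 := by
  obtain ⟨x, rfl⟩ : ∃ y, x = y + 1 := ⟨x - 1, by omega⟩
  simp only [ee, v1]
  ring

lemma ee_v1_zero : ee 3 v1 0 = 4 := by
  simp [ee, v1, dg_one]

lemma ee_v1_ne (x : ℕ) (hx : 1 ≤ x) : ee 3 v1 x ≠ 0 ↔ dg x = dg (x+1) := by
  rw [ee_v1 x hx]
  have := dg_lt x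
  have := dg_lt (x+1)
  omega

theorem equal_count (n : ℕ) :
    n ≤ #{k ∈ Icc 1 n | dg k = dg (k+1)} * (#{k ∈ Icc 1 n | dg k = dg (k+1)} + 1) *
      (#{k ∈ Icc 1 n | dg k = dg (k+1)} + 8) + Nat.log 2 (n+1) + 4 := by
  classical
  have : Fact (Nat.Prime 3) := ⟨by norm_num⟩
  set S := #{k ∈ Icc 1 n | dg k = dg (k+1)} with hS
  set K := Nat.log 2 (n+1) + 4 with hK
  rcases Nat.lt_or_ge n K with hnK | hnK
  · omega
  obtain ⟨M, hM⟩ : ∃ M, n = M + K := ⟨n - K, by omega⟩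
  have hT : |2 * (3:ℤ)^2 * 2^n - conv (ee 3 v1) n| < 2^(n-M) := by
    apply lt_of_le_of_lt (tail_v1 _)
    have h1 : n + 1 < 2^(Nat.log 2 (n+1)+1) := Nat.lt_pow_succ_log_self (by norm_num) _
    have h2 : 2^K = 8 * 2^(Nat.log 2 (n+1)+1) := by rw [hK]; ring
    have h3 : 4 * n + 8 < 2^K := by rw [h2]; omega
    rw [show n - M = K by omega]
    exact_mod_cast h3
  have hpsi := psi_card (ee 3 v1) (2 * (3:ℤ)^2) M n (by omega) hT
  have hsum : ∑ i ∈ range (n+1), |ee 3 v1 i| ≤ S + 4 := by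
    rw [sum_range_succ', ee_v1_zero]
    have h1 : ∑ i ∈ range n, |ee 3 v1 (i+1)| ≤ S := by
      have h2 : ∀ i ∈ range n, |ee 3 v1 (i+1)| = if dg (i+1) = dg (i+1+1) then 1 else 0 := by
        intro i _
        rw [ee_v1 (i+1) (by omega)]
        have h5 : dg (i+1) = 0 ∨ dg (i+1) = 1 := by have := dg_lt (i+1); omega
        have h6 : dg (i+1+1) = 0 ∨ dg (i+1+1) = 1 := by have := dg_lt (i+1+1); omega
        rcases h5 with h5 | h5 <;> rcases h6 with h6 | h6 <;> rw [h5, h6] <;> norm_num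
      rw [sum_congr rfl h2, sum_boole]
      have h3 : #{i ∈ range n | dg (i+1) = dg (i+1+1)} ≤ S := by
        apply card_le_card_of_injOn (fun i => i + 1)
        · intro i hi
          rw [mem_coe, mem_filter, mem_range] at hi
          rw [mem_coe, mem_filter, mem_Icc]
          exact ⟨⟨Nat.le_add_left 1 i, hi.1⟩, hi.2⟩
        · intro a _ b _ hab
          simpa using hab
      exact_mod_cast h3
    have h2 : |(4:ℤ)| = 4 := rfl
    rw [h2]
    linarith
  have hpsi2 : #{t ∈ range M | 2 * (3:ℤ)^2 * 2^t - conv (ee 3 v1) t ≠ 0} ≤ S * (S + 8) := by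
    have h3 : (0:ℤ) ≤ ∑ i ∈ range (n+1), |ee 3 v1 i| := sum_nonneg (fun _ _ => abs_nonneg _)
    have h4 : (∑ i ∈ range (n+1), |ee 3 v1 i|)^2 ≤ ((S:ℤ) + 4)^2 := pow_le_pow_left₀ h3 hsum 2
    rw [ee_v1_zero] at hpsi
    have h5 : (#{t ∈ range M | 2 * (3:ℤ)^2 * 2^t - conv (ee 3 v1) t ≠ 0} : ℤ) ≤ S * (S + 8) := by
      have h2 : |(4:ℤ)| = 4 := rfl
      rw [h2] at hpsi
      nlinarith
    exact_mod_cast h5
  have hcore := core_count (p := 3) (h := 1) rfl le_rfl (ee 3 v1) (2 * (3:ℤ)^2) (by norm_num) M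
  have hleft : #{t ∈ range M | ¬ ((3:ℕ):ℤ) ∣ Phi (ee 3 v1) (t / 3)} = M := by
    rw [filter_true_of_mem, card_range]
    intro t _
    rw [Phi_ee]
    simp only [v1]
    have := dg_lt (t/3+1)
    push_cast
    omega
  rw [hleft] at hcore
  have hA : #{k ∈ range M | ee 3 v1 k ≠ 0} ≤ S + 1 := by
    have hsub : {k ∈ range M | ee 3 v1 k ≠ 0} ⊆ insert 0 {k ∈ Icc 1 n | dg k = dg (k+1)} := by
      intro k hk
      rw [mem_filter, mem_range] at hk
      rw [mem_insert, mem_filter, mem_Icc]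
      rcases Nat.eq_zero_or_pos k with h0 | h0
      · exact Or.inl h0
      · exact Or.inr ⟨⟨h0, by omega⟩, (ee_v1_ne k h0).mp hk.2⟩
    exact (card_le_card hsub).trans (card_insert_le _ _)
  have hfin : M ≤ (S+1) * (1 * (S * (S+8))^1) :=
    hcore.trans (Nat.mul_le_mul hA (Nat.mul_le_mul_left _ (Nat.pow_le_pow_left hpsi2 _)))
  have h6 : (S+1) * (1 * (S * (S+8))^1) = S * (S+1) * (S+8) := by ring
  omega

end Pool.Agent.H49.NB
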